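import Pool.Agent.LKT.Stmts

/-!
# Squad LKT, row SMP: nonzero brackets imply that the chain is simple
-/

set_option autoImplicit false

namespace Pool.Agent.LKT.H88

open Pool.Agent.LCK Pool.Agent.LKT

/-- homogeneous coordinates of a point -/
noncomputable def hv (p : E3) : Fin 4 → ℝ := ![1, p 0, p 1, p 2]

theorem hv_ne (p : E3) : hv p ≠ 0 := by
  intro h
  have h1 := congrFun h 0
  simp [hv] at h1

theorem hv_comb (p q : E3) (s t : ℝ) (h : s + t = 1) :
    hv (s • p + t • q) = s • hv p + t • hv q := by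
  ext m
  fin_cases m
  · simp [hv, h]
  · simp [hv]
  · simp [hv]
  · simp [hv]

theorem hv_v0 (x : Fin 8 → E3) : hv (vv x 0) = hom x 0 + hom x 1 := by
  ext m
  fin_cases m <;> simp [hv, hom, vv, add_comm]

theorem hv_v1 (x : Fin 8 → E3) : hv (vv x 1) = hom x 1 := by
  ext m
  fin_cases m <;> simp [hv, hom, vv]

theorem hv_v2 (x : Fin 8 → E3) : hv (vv x 2) = hom x 2 := by
  ext m
  fin_cases m <;> simp [hv, hom, vv]

theorem hv_v3 (x : Fin 8 → E3) : hv (vv x 3) = hom x 3 := by
  ext m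
  fin_cases m <;> simp [hv, hom, vv]

theorem hv_v4 (x : Fin 8 → E3) : hv (vv x 4) = hom x 4 := by
  ext m
  fin_cases m <;> simp [hv, hom, vv]

theorem hv_v5 (x : Fin 8 → E3) : hv (vv x 5) = hom x 5 := by
  ext m
  fin_cases m <;> simp [hv, hom, vv]

theorem hv_v6 (x : Fin 8 → E3) : hv (vv x 6) = hom x 6 := by
  ext m
  fin_cases m <;> simp [hv, hom, vv]

theorem hv_v7 (x : Fin 8 → E3) : hv (vv x 7) = hom x 6 + hom x 7 := by
  ext m
  fin_cases m <;> simp [hv, hom, vv]

/-- a point of a link in terms of the two homogeneous points -/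
theorem seg (x : Fin 8 → E3) (i : Fin 7) (q : E3)
    (hq : q ∈ segment ℝ (vv x i.castSucc) (vv x i.succ)) :
    ∃ α β : ℝ, hv q = α • hom x i.castSucc + β • hom x i.succ ∧
      ((i : ℕ) ≤ 5 → α = 0 → q = vv x i.succ) := by
  obtain ⟨s, t, hs, ht, hst, rfl⟩ := hq
  have hlast : s = 0 → s • vv x i.castSucc + t • vv x i.succ = vv x i.succ := by
    intro h
    have h1 : t = 1 := by linarith
    rw [h, h1, zero_smul, one_smul, zero_add]
  have key := hv_comb (vv x i.castSucc) (vv x i.succ) s t hst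
  by_cases h0 : i = 0
  · refine ⟨s, 1, ?_, fun _ => hlast⟩
    rw [key]
    subst h0
    show s • hv (vv x 0) + t • hv (vv x 1) = s • hom x 0 + (1 : ℝ) • hom x 1
    rw [hv_v0, hv_v1, ← hst]
    module
  · by_cases h6 : i = 6
    · refine ⟨1, t, ?_, ?_⟩
      · rw [key]
        subst h6
        show s • hv (vv x 6) + t • hv (vv x 7) = (1 : ℝ) • hom x 6 + t • hom x 7
        rw [hv_v6, hv_v7, ← hst]
        module
      · intro h
        subst h6
        exact absurd h (by decide)
    · refine ⟨s, t, ?_, fun _ => hlast⟩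
      rw [key]
      have aux : ∀ i : Fin 7, ¬ i = 0 → ¬ i = 6 → i = 1 ∨ i = 2 ∨ i = 3 ∨ i = 4 ∨ i = 5 := by
        decide
      have h : i = 1 ∨ i = 2 ∨ i = 3 ∨ i = 4 ∨ i = 5 := aux i h0 h6
      rcases h with rfl | rfl | rfl | rfl | rfl
      · show s • hv (vv x 1) + t • hv (vv x 2) = s • hom x 1 + t • hom x 2
        rw [hv_v1, hv_v2]
      · show s • hv (vv x 2) + t • hv (vv x 3) = s • hom x 2 + t • hom x 3
        rw [hv_v2, hv_v3]
      · show s • hv (vv x 3) + t • hv (vv x 4) = s • hom x 3 + t • hom x 4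
        rw [hv_v3, hv_v4]
      · show s • hv (vv x 4) + t • hv (vv x 5) = s • hom x 4 + t • hom x 5
        rw [hv_v4, hv_v5]
      · show s • hv (vv x 5) + t • hv (vv x 6) = s • hom x 5 + t • hom x 6
        rw [hv_v5, hv_v6]

theorem d4_aba (crm : CrmStmt) (a b c : Fin 4 → ℝ) : d4 a b a c = 0 := by
  rw [(crm.2.1 a a b c).2.1, crm.2.2.2, neg_zero]

theorem d4_abca (crm : CrmStmt) (a b c : Fin 4 → ℝ) : d4 a b c a = 0 := by
  rw [(crm.2.1 a b a c).2.2, d4_aba crm, neg_zero]

/-- the coefficient of `a` vanishes -/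
theorem coef (crm : CrmStmt) (a b c d : Fin 4 → ℝ) (α β γ δ : ℝ)
    (h : α • a + β • b = γ • c + δ • d) (hne : d4 a b c d ≠ 0) : α = 0 := by
  have h1 : d4 (α • a + β • b) b c d = α * d4 a b c d := by
    rw [crm.2.2.1, crm.2.2.2, mul_zero, add_zero]
  have h2 : d4 (γ • c + δ • d) b c d = 0 := by
    rw [crm.2.2.1, d4_aba crm, d4_abca crm, mul_zero, mul_zero, add_zero]
  rw [h, h2] at h1
  rcases mul_eq_zero.1 h1.symm with h3 | h3
  · exact h3
  · exact absurd h3 hne

theorem smp (crm : CrmStmt) : SmpStmt := by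
  intro x h1 h2 i j hij
  have hij' : (i : ℕ) < j := hij
  have hj6 : (j : ℕ) ≤ 6 := by omega
  by_cases hc : (j : ℕ) = (i : ℕ) + 1
  · rw [if_pos hc]
    have hb : j.castSucc = i.succ := Fin.ext (by simp [hc])
    rw [hb]
    apply Set.Subset.antisymm
    · rintro q ⟨hq1, hq2⟩
      obtain ⟨α, β, e1, e2⟩ := seg x i q hq1
      rw [← hb] at hq2
      obtain ⟨γ, δ, e3, -⟩ := seg x j q hq2
      rw [hb] at e3
      rw [Set.mem_singleton_iff]
      apply e2 (by omega)
      have h4 : α • hom x i.castSucc + β • hom x i.succ =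
          γ • hom x i.succ + δ • hom x j.succ := by rw [← e1, ← e3]
      -- a fourth point
      have h5 : ∃ e : Fin 8, d4 (hom x i.castSucc) (hom x i.succ) (hom x j.succ) (hom x e) ≠ 0 := by
        by_cases hj : (j : ℕ) ≤ 5
        · refine ⟨⟨(j : ℕ) + 2, by omega⟩, ?_⟩
          exact h2 i.castSucc i.succ j.succ ⟨(j : ℕ) + 2, by omega⟩ (by simp) (by simp [hc])
            (by simp)
        · have hj' : (j : ℕ) = 6 := by omega
          have hi' : (i : ℕ) = 5 := by omega
          refine ⟨⟨4, by omega⟩, ?_⟩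
          rw [(crm.2.1 _ _ _ _).2.2, (crm.2.1 _ _ _ _).2.1, (crm.2.1 _ _ _ _).1]
          rw [neg_neg]
          refine neg_ne_zero.2 ?_
          exact h2 ⟨4, by omega⟩ i.castSucc i.succ j.succ (by simp [hi']) (by simp) (by simp [hc])
      obtain ⟨e, he⟩ := h5
      have h6 : α • hom x i.castSucc + (β - γ) • hom x i.succ =
          δ • hom x j.succ + (0 : ℝ) • hom x e := by
        have h7 : (β - γ) • hom x i.succ = β • hom x i.succ - γ • hom x i.succ := sub_smul _ _ _
        rw [h7, zero_smul, add_zero, ← add_sub_assoc, h4, add_sub_cancel_left]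
      exact coef crm _ _ _ _ α (β - γ) δ 0 h6 he
    · intro q hq
      rw [Set.mem_singleton_iff] at hq
      rw [hq]
      exact ⟨right_mem_segment ℝ _ _, left_mem_segment ℝ _ _⟩
  · rw [if_neg hc]
    rw [Set.eq_empty_iff_forall_notMem]
    rintro q ⟨hq1, hq2⟩
    obtain ⟨α, β, e1, -⟩ := seg x i q hq1
    obtain ⟨γ, δ, e3, -⟩ := seg x j q hq2
    have hne : d4 (hom x i.castSucc) (hom x i.succ) (hom x j.castSucc) (hom x j.succ) ≠ 0 :=
      h1 i.castSucc i.succ j.castSucc j.succ (by simp) (by simp) (by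
        simp only [Fin.val_succ, Fin.val_castSucc]
        omega)
    have h4 : α • hom x i.castSucc + β • hom x i.succ =
        γ • hom x j.castSucc + δ • hom x j.succ := by rw [← e1, ← e3]
    have hα : α = 0 := coef crm _ _ _ _ α β γ δ h4 hne
    have hβ : β = 0 := by
      have h5 : β • hom x i.succ + α • hom x i.castSucc =
          γ • hom x j.castSucc + δ • hom x j.succ := by rw [← h4, add_comm]
      apply coef crm _ _ _ _ β α γ δ h5
      rw [(crm.2.1 _ _ _ _).1]
      exact neg_ne_zero.2 hne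
    apply hv_ne q
    rw [e1, hα, hβ, zero_smul, zero_smul, add_zero]

end Pool.Agent.LKT.H88
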